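import Pool.Agent.KLW.D
import Pool.Agent.MP_2f88e5_nt.Kl

/-!
# [KLW-E] the Weil bound for Kloosterman sums
-/

set_option autoImplicit false
set_option linter.unusedSectionVars false

open Polynomial Finset

namespace KLW

theorem tower {p : ℕ} [Fact p.Prime] (hp : p ≠ 2) (Q : ℕ) (κ : ℕ → ℂ)
    (hκ : ∀ j, κ (j + 1) = 2 * (Q : ℂ) ^ (2 ^ j) - κ j ^ 2)
    (h0 : ∃ (E : Type) (_ : Field E) (_ : Fintype E) (_ : DecidableEq E) (_ : CharP E p)
      (ψ : AddChar E ℂ) (a b : E), Fintype.card E = Q ∧ ψ ≠ 1 ∧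
      (∀ y, ψ (y ^ p) = ψ y) ∧ a ≠ 0 ∧ b ≠ 0 ∧ K ψ a b = κ 0) (j : ℕ) :
    ∃ (E : Type) (_ : Field E) (_ : Fintype E) (_ : DecidableEq E) (_ : CharP E p)
      (ψ : AddChar E ℂ) (a b : E), Fintype.card E = Q ^ (2 ^ j) ∧ ψ ≠ 1 ∧
      (∀ y, ψ (y ^ p) = ψ y) ∧ a ≠ 0 ∧ b ≠ 0 ∧ K ψ a b = κ j := by
  induction j with
  | zero =>
    obtain ⟨E, i1, i2, i3, i4, ψ, a, b, h1, h2⟩ := h0
    exact ⟨E, i1, i2, i3, i4, ψ, a, b, by rw [h1, pow_zero, pow_one], h2⟩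
  | succ j ih =>
    obtain ⟨E, i1, i2, i3, i4, ψ, a, b, h1, h2, h3, h4, h5, h6⟩ := ih
    obtain ⟨E', k1, k2, k3, k4, ψ', a', b', l1, l2, l3, l4, l5, l6⟩ := doubling hp h2 h3 h4 h5
    refine ⟨E', k1, k2, k3, k4, ψ', a', b', ?_, l2, l3, l4, l5, ?_⟩
    · rw [l1, h1, ← pow_mul, pow_succ]
    · rw [l6, h6, h1, hκ]
      push_cast
      rfl

/-- the sequence `v ↦ v ^ 2 - 2` is unbounded when it starts above `2` -/
theorem seq_unbounded {v : ℕ → ℝ} (hv : ∀ j, v (j + 1) = v j ^ 2 - 2) {C : ℝ}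
    (hC : ∀ j, 2 ≤ j → v j ≤ C) : v 0 ≤ 2 := by
  by_contra hlt
  rw [not_le] at hlt
  have key : ∀ j : ℕ, 2 + 4 ^ j * (v 0 - 2) ≤ v j := by
    intro j
    induction j with
    | zero => rw [pow_zero]; linarith
    | succ j ih =>
      rw [hv j, pow_succ]
      have hx : 0 < 4 ^ j * (v 0 - 2) := mul_pos (by positivity) (by linarith)
      nlinarith
  obtain ⟨j, hj⟩ := exists_nat_gt (C / (v 0 - 2))
  rw [div_lt_iff₀ (by linarith)] at hj
  have h1 := key (j + 2)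
  have h2 := hC (j + 2) (by omega)
  have h3 : (j : ℝ) ≤ 4 ^ (j + 2) := by
    have : (j : ℝ) < 4 ^ (j + 2) := by
      have h4 : j + 2 < 4 ^ (j + 2) := Nat.lt_pow_self (by norm_num)
      have h5 : j < 4 ^ (j + 2) := by omega
      exact_mod_cast h5
    exact this.le
  have h6 := mul_le_mul_of_nonneg_right h3 (by linarith : (0 : ℝ) ≤ v 0 - 2)
  linarith

theorem K_conj {F : Type} [Field F] [Fintype F] [DecidableEq F] (ψ : AddChar F ℂ) (a b : F) :
    (starRingEnd ℂ) (K ψ a b) = K ψ a b := by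
  unfold K
  rw [map_sum]
  refine Finset.sum_bij' (fun x _ => -x) (fun x _ => -x) ?_ ?_ ?_ ?_ ?_
  · intro x hx
    rw [mem_filter] at hx ⊢
    exact ⟨mem_univ _, neg_ne_zero.mpr hx.2⟩
  · intro x hx
    rw [mem_filter] at hx ⊢
    exact ⟨mem_univ _, neg_ne_zero.mpr hx.2⟩
  · intro x _; exact neg_neg x
  · intro x _; exact neg_neg x
  · intro x _
    rw [← AddChar.map_neg_eq_conj]
    congr 1
    rw [inv_neg]
    ring

/-- the sums over the tower of quadratic extensions -/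
noncomputable def kap (Q : ℕ) (r : ℝ) : ℕ → ℝ
  | 0 => r
  | j + 1 => 2 * (Q : ℝ) ^ (2 ^ j) - kap Q r j ^ 2

/-- Weil bound for Kloosterman sums -/
theorem weil {F : Type} [Field F] [Fintype F] [DecidableEq F] {p n : ℕ} [Fact p.Prime] [CharP F p]
    (hp : p ≠ 2) (hn : 0 < n) (hF : Fintype.card F = p ^ n) {ψ : AddChar F ℂ} (hψ : ψ ≠ 1)
    (hfr : ∀ y, ψ (y ^ p) = ψ y) {a b : F} (ha : a ≠ 0) (hb : b ≠ 0) :
    ‖K ψ a b‖ ^ 2 ≤ 4 * (Fintype.card F : ℝ) := by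
  have hpp : p.Prime := Fact.out
  have hp2 : 2 ≤ p := hpp.two_le
  set Q : ℕ := Fintype.card F with hQ
  have hQpos : (0 : ℝ) < Q := by exact_mod_cast Fintype.card_pos (α := F)
  -- real sequence
  obtain ⟨κ, hκ⟩ : ∃ κ : ℕ → ℝ, κ = kap Q (K ψ a b).re := ⟨_, rfl⟩
  have hκ0 : κ 0 = (K ψ a b).re := by rw [hκ]; rfl
  have hκs : ∀ j, κ (j + 1) = 2 * (Q : ℝ) ^ (2 ^ j) - κ j ^ 2 := fun j => by rw [hκ]; rfl
  have hreal : K ψ a b = ((κ 0 : ℝ) : ℂ) := by
    rw [hκ0]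
    exact (Complex.conj_eq_iff_re.mp (K_conj ψ a b)).symm
  have hT := tower hp Q (fun j => ((κ j : ℝ) : ℂ)) (fun j => by simp only [hκs]; push_cast; rfl)
    ⟨F, inferInstance, inferInstance, inferInstance, inferInstance, ψ, a, b, rfl, hψ, hfr, ha, hb, hreal⟩
  -- normalised sequence
  obtain ⟨v, hv0⟩ : ∃ v : ℕ → ℝ, ∀ j, v j = -κ (j + 1) / (Q : ℝ) ^ (2 ^ j) := ⟨_, fun j => rfl⟩
  have hv : ∀ j, v (j + 1) = v j ^ 2 - 2 := by
    intro j
    rw [hv0, hv0, hκs (j + 1)]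
    have hq : (Q : ℝ) ^ 2 ^ (j + 1) = ((Q : ℝ) ^ 2 ^ j) ^ 2 := by rw [← pow_mul, pow_succ]
    have hq0 : (Q : ℝ) ^ 2 ^ j ≠ 0 := (pow_pos hQpos _).ne'
    rw [hq]
    field_simp
    ring
  have hbd : ∀ j, 2 ≤ j → v j ≤ 7 * p := by
    intro j hj
    obtain ⟨E, i1, i2, i3, i4, ψ', a', b', h1, h2, h3, h4, h5, h6⟩ := hT (j + 1)
    have hcard : Fintype.card E = (p ^ (n * 2 ^ j)) ^ 2 := by
      rw [h1, hF, ← pow_mul, ← pow_mul, pow_succ, mul_assoc]
    have hm : 3 ≤ n * 2 ^ j := by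
      have e1 : 2 ^ 2 ≤ 2 ^ j := Nat.pow_le_pow_right (by norm_num) hj
      nlinarith
    have h7 := K_bound hp hcard hm h2 h3 h4 h5
    rw [h6, Complex.norm_real, Real.norm_eq_abs] at h7
    have hQj : (Q : ℝ) ^ 2 ^ j = (p : ℝ) ^ (n * 2 ^ j) := by
      rw [hF]; push_cast; rw [← pow_mul]
    rw [hv0, hQj, div_le_iff₀ (by positivity)]
    have h8 : -κ (j + 1) ≤ |κ (j + 1)| := neg_le_abs _
    have h9 : (1 : ℝ) ≤ (p : ℝ) ^ (n * 2 ^ j) := one_le_pow₀ (by exact_mod_cast hpp.one_lt.le)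
    have h10 : (2 : ℝ) ≤ p := by exact_mod_cast hp2
    nlinarith
  have hfin := seq_unbounded hv hbd
  have h11 : v 0 = κ 0 ^ 2 / Q - 2 := by
    rw [hv0, hκs 0]
    simp only [pow_zero, pow_one]
    field_simp
    ring
  rw [h11] at hfin
  have h12 : κ 0 ^ 2 ≤ 4 * Q := by
    have : κ 0 ^ 2 / Q ≤ 4 := by linarith
    rwa [div_le_iff₀ hQpos] at this
  rw [hreal, Complex.norm_real, Real.norm_eq_abs, sq_abs]
  exact h12

open Pool.Agent.MP_2f88e5_nt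

theorem kl_eq_K (p : ℕ) [Fact p.Prime] (a b : ZMod p) :
    kl p a b = K (ZMod.stdAddChar (N := p)) a b := by
  unfold kl K
  refine Finset.sum_bij (fun (x : (ZMod p)ˣ) _ => (x : ZMod p)) ?_ ?_ ?_ ?_
  · intro x _
    rw [mem_filter]
    exact ⟨mem_univ _, x.ne_zero⟩
  · intro x _ y _ h
    exact Units.ext h
  · intro x hx
    rw [mem_filter] at hx
    exact ⟨Units.mk0 x hx.2, mem_univ _, rfl⟩
  · intro x _
    rw [Units.val_inv_eq_inv_val]

theorem std_ne (p : ℕ) [Fact p.Prime] : (ZMod.stdAddChar (N := p) : AddChar (ZMod p) ℂ) ≠ 1 := by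
  have h := (ZMod.isPrimitive_stdAddChar p) (one_ne_zero)
  rw [AddChar.mulShift_one] at h
  exact h

/-- **Weil bound** for Kloosterman sums modulo a prime -/
theorem kl_bound (p : ℕ) [Fact p.Prime] {a b : ZMod p} (hab : ¬ (a = 0 ∧ b = 0)) :
    ‖kl p a b‖ ≤ 2 * Real.sqrt p := by
  have hpp : p.Prime := Fact.out
  have hp1 : (1 : ℝ) ≤ p := by exact_mod_cast hpp.one_lt.le
  have hs1 : 1 ≤ Real.sqrt p := by rw [Real.one_le_sqrt]; exact hp1
  -- one of the two is zero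
  have hlin : ∀ c : ZMod p, c ≠ 0 → ‖∑ x : (ZMod p)ˣ, ZMod.stdAddChar (c * (x : ZMod p))‖ ≤ 1 := by
    intro c hc
    have h1 : ∑ x : ZMod p, (ZMod.stdAddChar (x * c) : ℂ) = 0 := by
      rw [sum_char, if_neg hc]
    have h2 : ∑ x : (ZMod p)ˣ, (ZMod.stdAddChar (c * (x : ZMod p)) : ℂ) =
        ∑ x ∈ univ.erase (0 : ZMod p), (ZMod.stdAddChar (x * c) : ℂ) := by
      refine Finset.sum_bij (fun (x : (ZMod p)ˣ) _ => (x : ZMod p)) ?_ ?_ ?_ ?_
      · intro x _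
        rw [mem_erase]
        exact ⟨x.ne_zero, mem_univ _⟩
      · intro x _ y _ h
        exact Units.ext h
      · intro x hx
        rw [mem_erase] at hx
        exact ⟨Units.mk0 x hx.1, mem_univ _, rfl⟩
      · intro x _
        rw [mul_comm]
    rw [h2]
    have h3 := Finset.sum_erase_add univ (fun x : ZMod p => (ZMod.stdAddChar (x * c) : ℂ)) (mem_univ 0)
    rw [h1] at h3
    simp only [zero_mul, AddChar.map_zero_eq_one] at h3
    rw [eq_neg_of_add_eq_zero_left h3, norm_neg, norm_one]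
  by_cases ha : a = 0
  · have hb : b ≠ 0 := fun h => hab ⟨ha, h⟩
    have e : kl p a b = ∑ x : (ZMod p)ˣ, ZMod.stdAddChar (b * (x : ZMod p)) := by
      unfold kl
      refine Fintype.sum_equiv (Equiv.inv _) _ _ fun x => ?_
      rw [ha, zero_mul, zero_add]
      rfl
    rw [e]
    linarith [hlin b hb]
  by_cases hb : b = 0
  · have e : kl p a b = ∑ x : (ZMod p)ˣ, ZMod.stdAddChar (a * (x : ZMod p)) := by
      unfold kl
      refine Fintype.sum_congr _ _ fun x => ?_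
      rw [hb, zero_mul, add_zero]
    rw [e]
    linarith [hlin a ha]
  by_cases hp2 : p = 2
  · subst hp2
    have hc : Fintype.card (ZMod 2)ˣ = 1 := by rw [ZMod.card_units]
    have h1 : ‖kl 2 a b‖ ≤ 1 := by
      unfold kl
      refine (norm_sum_le _ _).trans ?_
      rw [Finset.sum_congr rfl (fun x _ => AddChar.norm_apply _ _), Finset.sum_const, card_univ, hc]
      simp
    linarith
  · have h1 := weil (F := ZMod p) (p := p) (n := 1) hp2 one_pos (by rw [ZMod.card, pow_one])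
      (std_ne p) (fun y => by rw [ZMod.pow_card]) ha hb
    rw [← kl_eq_K, ZMod.card] at h1
    have h2 : ‖kl p a b‖ ^ 2 ≤ (2 * Real.sqrt p) ^ 2 := by
      rw [mul_pow, Real.sq_sqrt (by positivity)]
      linarith
    exact (pow_le_pow_iff_left₀ (norm_nonneg _) (by positivity) two_ne_zero).mp h2

end KLW
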