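import Mathlib
import Pool.Agent.MP_c1dca2_ag.SC7.W1

/-!
# [KLW-A] Stepanov's method over a field with `s ^ 2` elements, `s = p ^ m`

`D` squarefree of degree at most `2 h`. On the set of the `x` with `D(x) ^ ((s ^ 2 - 1) / 2) = ε` (`ε = ±1`) the polynomial
`H = ∑ j, (r_j + ε t_j D ^ ((s + 1) / 2)) X ^ (j s)` vanishes if `∑ j, (r_j ^ s + t_j ^ s D ^ ((s + 1) / 2)) X ^ j = 0`.
-/

set_option autoImplicit false

open Polynomial Finset

namespace KLW

section
variable {F : Type} [Field F]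

/-- the polynomial with given coefficients -/
noncomputable def P (n : ℕ) (c : Fin n → F) : F[X] :=
  (((degreeLTEquiv F n).symm c : degreeLT F n) : F[X])

theorem P_deg (n : ℕ) (c : Fin n → F) : (P n c).degree < n :=
  mem_degreeLT.1 ((degreeLTEquiv F n).symm c).2

theorem P_inj (n : ℕ) {c c' : Fin n → F} (h : P n c = P n c') : c = c' :=
  (degreeLTEquiv F n).symm.injective (Subtype.coe_injective h)

theorem P_sub (n : ℕ) (c c' : Fin n → F) : P n (c - c') = P n c - P n c' := by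
  unfold P
  rw [map_sub]
  rfl

theorem natDegree_le_pred {n : ℕ} (hn : 1 ≤ n) {r : F[X]} (h : r.degree < n) : r.natDegree ≤ n - 1 := by
  by_cases hr : r = 0
  · rw [hr, natDegree_zero]
    omega
  · have := (natDegree_lt_iff_degree_lt hr).2 h
    omega

theorem exists_ker [Fintype F] {p m : ℕ} [Fact p.Prime] [CharP F p] (D : F[X]) (e J B B' N : ℕ)
    (_hJ : 1 ≤ J) (hB : 1 ≤ B) (hB' : 1 ≤ B') (h1 : p ^ m * (B - 1) + J ≤ N)
    (h2 : p ^ m * (B' - 1) + e * D.natDegree + J ≤ N) (hN : N < J * (B + B')) :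
    ∃ r t : Fin J → F[X], (∀ j, (r j).degree < B) ∧ (∀ j, (t j).degree < B') ∧
      (∃ j, ¬ (r j = 0 ∧ t j = 0)) ∧
      ∑ j : Fin J, ((r j) ^ (p ^ m) + (t j) ^ (p ^ m) * D ^ e) * X ^ (j : ℕ) = 0 := by
  classical
  let G : (Fin J → F[X]) → (Fin J → F[X]) → F[X] := fun r t =>
    ∑ j : Fin J, ((r j) ^ (p ^ m) + (t j) ^ (p ^ m) * D ^ e) * X ^ (j : ℕ)
  have hmem : ∀ f : F[X], f.natDegree < N → f ∈ degreeLT F N := fun f hf =>
    mem_degreeLT.2 (degree_le_natDegree.trans_lt (by exact_mod_cast hf))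
  have hG : ∀ r t : Fin J → F[X], (∀ j, (r j).degree < B) → (∀ j, (t j).degree < B') →
      (G r t).degree < N := by
    intro r t hr ht
    apply mem_degreeLT.1
    refine Submodule.sum_mem _ fun j _ => ?_
    rw [add_mul]
    refine Submodule.add_mem _ (hmem _ ?_) (hmem _ ?_)
    · have e1 := natDegree_le_pred hB (hr j)
      have e2 : ((r j) ^ (p ^ m) * X ^ (j : ℕ)).natDegree ≤ p ^ m * (r j).natDegree + j :=
        natDegree_mul_le.trans (add_le_add natDegree_pow_le (by rw [natDegree_X_pow]))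
      have e3 : p ^ m * (r j).natDegree ≤ p ^ m * (B - 1) := Nat.mul_le_mul_left _ e1
      have := j.2
      omega
    · have e1 := natDegree_le_pred hB' (ht j)
      have e2 : ((t j) ^ (p ^ m) * D ^ e * X ^ (j : ℕ)).natDegree ≤
          p ^ m * (t j).natDegree + e * D.natDegree + j :=
        natDegree_mul_le.trans (add_le_add (natDegree_mul_le.trans
          (add_le_add natDegree_pow_le natDegree_pow_le)) (by rw [natDegree_X_pow]))
      have e3 : p ^ m * (t j).natDegree ≤ p ^ m * (B' - 1) := Nat.mul_le_mul_left _ e1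
      have := j.2
      omega
  let Φ : ((Fin J → Fin B → F) × (Fin J → Fin B' → F)) → (Fin N → F) := fun v i =>
    (G (fun j => P B (v.1 j)) (fun j => P B' (v.2 j))).coeff i
  have hcard : Fintype.card (Fin N → F) <
      Fintype.card ((Fin J → Fin B → F) × (Fin J → Fin B' → F)) := by
    rw [Fintype.card_prod, Fintype.card_fun, Fintype.card_fun, Fintype.card_fun, Fintype.card_fun,
      Fintype.card_fun, Fintype.card_fin, Fintype.card_fin, Fintype.card_fin, Fintype.card_fin,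
      ← pow_mul, ← pow_mul, ← pow_add]
    refine Nat.pow_lt_pow_right Fintype.one_lt_card ?_
    have : B * J + B' * J = J * (B + B') := by ring
    rw [this]
    exact hN
  obtain ⟨x, y, hxy, hΦ⟩ := Fintype.exists_ne_map_eq_of_card_lt Φ hcard
  have hGxy : G (fun j => P B (x.1 j)) (fun j => P B' (x.2 j)) =
      G (fun j => P B (y.1 j)) (fun j => P B' (y.2 j)) := by
    ext i
    by_cases hi : i < N
    · exact congrFun hΦ ⟨i, hi⟩
    · have hi' : (N : WithBot ℕ) ≤ (i : WithBot ℕ) := by exact_mod_cast (not_lt.1 hi)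
      rw [coeff_eq_zero_of_degree_lt
          ((hG _ _ (fun j => P_deg _ _) (fun j => P_deg _ _)).trans_le hi'),
        coeff_eq_zero_of_degree_lt
          ((hG _ _ (fun j => P_deg _ _) (fun j => P_deg _ _)).trans_le hi')]
  refine ⟨fun j => P B (x.1 j - y.1 j), fun j => P B' (x.2 j - y.2 j), fun j => P_deg _ _,
    fun j => P_deg _ _, ?_, ?_⟩
  · by_contra hcon
    push Not at hcon
    apply hxy
    refine Prod.ext (funext fun j => ?_) (funext fun j => ?_)
    · have := (hcon j).1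
      rw [P_sub, sub_eq_zero] at this
      exact P_inj _ this
    · have := (hcon j).2
      rw [P_sub, sub_eq_zero] at this
      exact P_inj _ this
  · have e1 : ∑ j : Fin J, ((P B (x.1 j - y.1 j)) ^ (p ^ m) +
        (P B' (x.2 j - y.2 j)) ^ (p ^ m) * D ^ e) * X ^ (j : ℕ) =
        G (fun j => P B (x.1 j)) (fun j => P B' (x.2 j)) -
          G (fun j => P B (y.1 j)) (fun j => P B' (y.2 j)) := by
      simp only [G]
      rw [← Finset.sum_sub_distrib]
      refine Finset.sum_congr rfl fun j _ => ?_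
      rw [P_sub, P_sub, sub_pow_char_pow, sub_pow_char_pow]
      ring
    rw [e1, hGxy, sub_self]

theorem key {p m e : ℕ} [Fact p.Prime] [CharP F p] {D r t : F[X]} (hD : Squarefree D)
    (hd : 1 ≤ D.natDegree) (h0 : D.eval 0 ≠ 0) (he : 2 * e = p ^ m + 1) {ε : F} (hε : ε ^ 2 = 1)
    (hr : 2 * r.natDegree < p ^ m) (ht : D.natDegree + 2 * t.natDegree < p ^ m)
    (hdvd : X ^ (p ^ m) ∣ r + C ε * t * D ^ e) : r = 0 ∧ t = 0 := by
  have h1 : X ^ (p ^ m) ∣ r ^ 2 - t ^ 2 * D ^ (p ^ m + 1) := by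
    refine hdvd.trans ⟨r - C ε * t * D ^ e, ?_⟩
    have e1 : C ε ^ 2 = (1 : F[X]) := by rw [← C_pow, hε, C_1]
    rw [← he]
    linear_combination (t ^ 2 * D ^ (2 * e)) * e1
  have h2 : X ^ (p ^ m) ∣ D ^ (p ^ m) - C (D.eval 0 ^ (p ^ m)) := by
    have e1 : X ∣ D - C (D.eval 0) := by
      rw [X_dvd_iff, coeff_sub, coeff_C_zero, coeff_zero_eq_eval_zero, sub_self]
    have e2 := pow_dvd_pow_of_dvd e1 (p ^ m)
    rwa [sub_pow_char_pow, ← C_pow] at e2
  have h3 : X ^ (p ^ m) ∣ r ^ 2 - C (D.eval 0 ^ (p ^ m)) * D * t ^ 2 := by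
    have e1 : r ^ 2 - C (D.eval 0 ^ (p ^ m)) * D * t ^ 2 = (r ^ 2 - t ^ 2 * D ^ (p ^ m + 1)) +
        (D ^ (p ^ m) - C (D.eval 0 ^ (p ^ m))) * (D * t ^ 2) := by ring
    rw [e1]
    exact dvd_add h1 (h2.mul_right _)
  have h4 : (r ^ 2 - C (D.eval 0 ^ (p ^ m)) * D * t ^ 2).natDegree < p ^ m := by
    refine (natDegree_sub_le _ _).trans_lt (max_lt (natDegree_pow_le.trans_lt hr) ?_)
    refine natDegree_mul_le.trans_lt ((add_le_add (natDegree_C_mul_le _ _) natDegree_pow_le).trans_lt ht)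
  have h5 : r ^ 2 - C (D.eval 0 ^ (p ^ m)) * D * t ^ 2 = 0 := by
    refine eq_zero_of_dvd_of_degree_lt h3 ?_
    rw [degree_X_pow]
    exact degree_le_natDegree.trans_lt (by exact_mod_cast h4)
  have hc : D.eval 0 ^ (p ^ m) ≠ 0 := pow_ne_zero _ h0
  have h6 : D * t ^ 2 = C (D.eval 0 ^ (p ^ m))⁻¹ * r ^ 2 := by
    have e1 : r ^ 2 = C (D.eval 0 ^ (p ^ m)) * D * t ^ 2 := sub_eq_zero.1 h5
    rw [e1, ← mul_assoc, ← mul_assoc, ← C_mul, inv_mul_cancel₀ hc, C_1, one_mul]
  have h7 : t = 0 := SC7.w1_square D t r hD hd _ (inv_ne_zero hc) h6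
  refine ⟨?_, h7⟩
  rw [h7] at h5
  simpa using h5

theorem nonvanish {p m e J : ℕ} [Fact p.Prime] [CharP F p] {D : F[X]} (hD : Squarefree D)
    (hd : 1 ≤ D.natDegree) (h0 : D.eval 0 ≠ 0) (he : 2 * e = p ^ m + 1) {ε : F} (hε : ε ^ 2 = 1)
    {r t : Fin J → F[X]} (hr : ∀ j, 2 * (r j).natDegree < p ^ m)
    (ht : ∀ j, D.natDegree + 2 * (t j).natDegree < p ^ m) (hne : ∃ j, ¬ (r j = 0 ∧ t j = 0)) :
    ∑ j : Fin J, (r j + C ε * t j * D ^ e) * X ^ ((j : ℕ) * p ^ m) ≠ 0 := by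
  classical
  intro hH
  let S : Finset (Fin J) := univ.filter fun j => ¬ (r j = 0 ∧ t j = 0)
  have hS : S.Nonempty := by
    obtain ⟨j, hj⟩ := hne
    exact ⟨j, mem_filter.2 ⟨mem_univ _, hj⟩⟩
  set j₀ := S.min' hS with hj₀
  have hj₀S : ¬ (r j₀ = 0 ∧ t j₀ = 0) := (mem_filter.1 (S.min'_mem hS)).2
  have hother : ∀ j : Fin J, j ≠ j₀ → X ^ (((j₀ : ℕ) + 1) * p ^ m) ∣
      (r j + C ε * t j * D ^ e) * X ^ ((j : ℕ) * p ^ m) := by
    intro j hj
    by_cases hjS : j ∈ S
    · have h1 : j₀ ≤ j := S.min'_le j hjS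
      have h2 : (j₀ : ℕ) + 1 ≤ (j : ℕ) := by
        have : j₀ < j := lt_of_le_of_ne h1 (Ne.symm hj)
        exact this
      exact (pow_dvd_pow X (Nat.mul_le_mul_right _ h2)).mul_left _
    · have h1 : r j = 0 ∧ t j = 0 := by
        by_contra h
        exact hjS (mem_filter.2 ⟨mem_univ _, h⟩)
      rw [h1.1, h1.2]
      simp
  have hsum : (r j₀ + C ε * t j₀ * D ^ e) * X ^ ((j₀ : ℕ) * p ^ m) =
      -∑ j ∈ univ.erase j₀, (r j + C ε * t j * D ^ e) * X ^ ((j : ℕ) * p ^ m) := by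
    rw [eq_neg_iff_add_eq_zero, ← hH]
    exact add_sum_erase univ (fun j : Fin J => (r j + C ε * t j * D ^ e) * X ^ ((j : ℕ) * p ^ m))
      (mem_univ j₀)
  have hdvd : X ^ (((j₀ : ℕ) + 1) * p ^ m) ∣
      (r j₀ + C ε * t j₀ * D ^ e) * X ^ ((j₀ : ℕ) * p ^ m) := by
    rw [hsum, dvd_neg]
    exact dvd_sum fun j hj => hother j (ne_of_mem_erase hj)
  have hdvd2 : X ^ (p ^ m) ∣ r j₀ + C ε * t j₀ * D ^ e := by
    have e1 : ((j₀ : ℕ) + 1) * p ^ m = p ^ m + (j₀ : ℕ) * p ^ m := by ring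
    rw [e1, pow_add] at hdvd
    exact (mul_dvd_mul_iff_right (pow_ne_zero _ X_ne_zero)).1 hdvd
  exact hj₀S (key hD hd h0 he hε (hr j₀) (ht j₀) hdvd2)

/-- **Stepanov's bound** -/
theorem stepanov [Fintype F] [DecidableEq F] {p m : ℕ} [Fact p.Prime] [CharP F p] (hp : p ≠ 2)
    (hF : Fintype.card F = (p ^ m) ^ 2) {D : F[X]} (hD : Squarefree D) (hd : 1 ≤ D.natDegree)
    {h : ℕ} (hh : D.natDegree ≤ 2 * h) (h0 : D.eval 0 ≠ 0) (hs : h ^ 2 + 2 * h < p ^ m)
    {ε : F} (hε : ε ^ 2 = 1) :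
    2 * (univ.filter fun x : F => D.eval x ^ (Fintype.card F / 2) = ε).card ≤
      (p ^ m) ^ 2 + 3 * h * p ^ m := by
  have hodd : Odd (p ^ m) := ((Fact.out : p.Prime).odd_of_ne_two hp).pow
  obtain ⟨k, hk⟩ := hodd
  have hh1 : 1 ≤ h := by omega
  have hhk : h + 1 ≤ k + 1 := by nlinarith
  obtain ⟨J, hJ1, hJ2⟩ : ∃ J, 2 * k + 1 + h ≤ 2 * J ∧ 2 * J ≤ 2 * k + 2 + h := by
    exact ⟨(2 * k + 2 + h) / 2, by omega, by omega⟩
  obtain ⟨B', hB'⟩ : ∃ B', B' + h = k + 1 := ⟨k + 1 - h, by omega⟩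
  have he : 2 * (k + 1) = p ^ m + 1 := by rw [hk]; ring
  have hnum : (2 * k + 1) * k + h + J < J * (k + 1 + B') := by
    have e1 : 0 ≤ (2 * (J : ℤ) - (2 * k + 1 + h)) * (2 * k + 1 - h) := by
      apply mul_nonneg
      · have : (2 * k + 1 + h : ℤ) ≤ 2 * J := by exact_mod_cast hJ1
        linarith
      · have : (h : ℤ) ≤ k := by exact_mod_cast (by omega : h ≤ k)
        have : (0 : ℤ) ≤ k := by positivity
        linarith
    have e2 : (h : ℤ) ^ 2 + 2 * h < 2 * k + 1 := by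
      have := hs
      rw [hk] at this
      exact_mod_cast this
    have e3 : (B' : ℤ) = k + 1 - h := by
      have : (B' : ℤ) + h = k + 1 := by exact_mod_cast hB'
      linarith
    have e4 : ((2 * k + 1) * k + h + J : ℤ) < J * (k + 1 + B') := by
      rw [e3]
      nlinarith
    exact_mod_cast e4
  obtain ⟨r, t, hr, ht, hne, hG⟩ := exists_ker (p := p) (m := m) D (k + 1) J (k + 1) B'
    ((2 * k + 1) * k + h + J) (by omega) (by omega) (by omega) (by rw [hk]; simp) (by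
      rw [hk]
      have e1 : (k + 1) * D.natDegree ≤ (k + 1) * (2 * h) := Nat.mul_le_mul_left _ hh
      have e2 : (2 * k + 1) * (B' - 1) + (k + 1) * (2 * h) = (2 * k + 1) * k + h := by
        have : B' - 1 + h = k := by omega
        zify at this ⊢
        rw [← this]
        ring
      omega) hnum
  set H : F[X] := ∑ j : Fin J, (r j + C ε * t j * D ^ (k + 1)) * X ^ ((j : ℕ) * p ^ m) with hH
  have hrn : ∀ j, (r j).natDegree ≤ k := fun j => by
    have := natDegree_le_pred (by omega : 1 ≤ k + 1) (by exact_mod_cast hr j)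
    omega
  have htn : ∀ j, (t j).natDegree ≤ B' - 1 := fun j => natDegree_le_pred (by omega) (ht j)
  have hH0 : H ≠ 0 := nonvanish hD hd h0 he hε (fun j => by have := hrn j; omega)
    (fun j => by have := htn j; omega) hne
  have hroot : ∀ x : F, D.eval x ^ (Fintype.card F / 2) = ε → H.IsRoot x := by
    intro x hx
    have hQ : Fintype.card F / 2 + (k + 1) = (k + 1) * p ^ m := by
      rw [hF, hk]
      have : (2 * k + 1) ^ 2 = 2 * (2 * k ^ 2 + 2 * k) + 1 := by ring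
      rw [this]
      have e1 : (2 * (2 * k ^ 2 + 2 * k) + 1) / 2 = 2 * k ^ 2 + 2 * k := by omega
      rw [e1]
      ring
    have hε2 : ε ^ (p ^ m) * ε = 1 := by
      rw [← pow_succ, ← he, pow_mul, hε, one_pow]
    have h1 : (H.eval x) ^ (p ^ m) =
        (∑ j : Fin J, ((r j) ^ (p ^ m) + (t j) ^ (p ^ m) * D ^ (k + 1)) * X ^ (j : ℕ)).eval x := by
      rw [hH, eval_finsetSum, eval_finsetSum, sum_pow_char_pow]
      refine Finset.sum_congr rfl fun j _ => ?_
      simp only [eval_mul, eval_add, eval_pow, eval_C, eval_X]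
      rw [mul_pow, add_pow_char_pow, mul_pow, mul_pow, ← pow_mul, ← pow_mul]
      have e1 : x ^ ((j : ℕ) * p ^ m * p ^ m) = x ^ (j : ℕ) := by
        have : (j : ℕ) * p ^ m * p ^ m = Fintype.card F * (j : ℕ) := by rw [hF]; ring
        rw [this, pow_mul, FiniteField.pow_card]
      have e2 : eval x D ^ ((k + 1) * p ^ m) = ε * eval x D ^ (k + 1) := by
        rw [← hQ, pow_add, hx]
      rw [e1, e2]
      have e3 : ε ^ (p ^ m) * eval x (t j) ^ (p ^ m) * (ε * eval x D ^ (k + 1)) =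
          (ε ^ (p ^ m) * ε) * (eval x (t j) ^ (p ^ m) * eval x D ^ (k + 1)) := by ring
      rw [e3, hε2, one_mul]
    rw [hG, eval_zero] at h1
    exact (pow_eq_zero_iff (pow_pos (Fact.out : p.Prime).pos m).ne').1 h1
  have hcard : (univ.filter fun x : F => D.eval x ^ (Fintype.card F / 2) = ε).card ≤ H.natDegree := by
    refine le_trans ?_ (card_roots' H)
    refine le_trans (Finset.card_le_card ?_) (Multiset.toFinset_card_le _)
    intro x hx
    rw [mem_filter] at hx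
    rw [Multiset.mem_toFinset, mem_roots hH0]
    exact hroot x hx.2
  have hdeg : H.natDegree ≤ k + h * p ^ m + (J - 1) * p ^ m := by
    refine natDegree_sum_le_of_forall_le _ _ fun j _ => ?_
    refine natDegree_mul_le.trans (add_le_add ?_ ?_)
    · refine (natDegree_add_le _ _).trans (max_le ((hrn j).trans (by omega)) ?_)
      refine natDegree_mul_le.trans ((add_le_add ((natDegree_C_mul_le _ _).trans (htn j))
        (natDegree_pow_le.trans (Nat.mul_le_mul_left _ hh))).trans ?_)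
      rw [hk]
      have : B' - 1 + h = k := by omega
      zify at this ⊢
      rw [← this]
      nlinarith
    · rw [natDegree_X_pow]
      exact Nat.mul_le_mul_right _ (by have := j.2; omega)
  have hJ3 : J - 1 + 1 = J := by omega
  have e5 : 2 * (k + h * p ^ m + (J - 1) * p ^ m) ≤ (p ^ m) ^ 2 + 3 * h * p ^ m := by
    rw [hk]
    obtain ⟨J', rfl⟩ : ∃ J', J = J' + 1 := ⟨J - 1, by omega⟩
    simp only [Nat.add_sub_cancel]
    nlinarith
  omega

end

end KLW
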