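import Pool.Agent.KLW.A

/-!
# [KLW-B] quadratic character sums over a field with `s ^ 2` elements
-/

set_option autoImplicit false

open Polynomial Finset

namespace KLW

section
variable {F : Type} [Field F] [Fintype F] [DecidableEq F]

theorem chi_eq (hF : ringChar F ≠ 2) (a : F) : (quadraticChar F a : ℤ) =
    (if a ^ (Fintype.card F / 2) = 1 then 1 else 0) - (if a ^ (Fintype.card F / 2) = -1 then 1 else 0) := by
  have h11 : (1 : F) ≠ -1 := (Ring.neg_one_ne_one_of_char_ne_two hF).symm
  have hpos : Fintype.card F / 2 ≠ 0 := by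
    have : 1 < Fintype.card F := Fintype.one_lt_card
    omega
  by_cases ha : a = 0
  · rw [ha, quadraticChar_zero, zero_pow hpos, if_neg zero_ne_one, if_neg, sub_zero]
    intro h
    exact one_ne_zero (neg_eq_zero.1 h.symm)
  · rw [quadraticChar_eq_pow_of_char_ne_two hF ha]
    rcases FiniteField.pow_dichotomy hF ha with h | h
    · simp only [h, if_true, if_neg h11, sub_zero]
    · simp only [h, if_true, if_neg h11.symm, zero_sub]

theorem char_sum_le {p m : ℕ} [Fact p.Prime] [CharP F p] (hp : p ≠ 2)
    (hF : Fintype.card F = (p ^ m) ^ 2) {D : F[X]} (hD : Squarefree D) (hd : 1 ≤ D.natDegree)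
    {h : ℕ} (hh : D.natDegree ≤ 2 * h) (h0 : D.eval 0 ≠ 0) (hs : h ^ 2 + 2 * h < p ^ m) :
    |∑ x : F, (quadraticChar F (D.eval x) : ℤ)| ≤ 3 * h * p ^ m + 2 * h := by
  have hchar : ringChar F ≠ 2 := by
    rw [ringChar.eq F p]
    exact hp
  have hpos : Fintype.card F / 2 ≠ 0 := by
    have : 1 < Fintype.card F := Fintype.one_lt_card
    omega
  have h11 : (1 : F) ≠ -1 := (Ring.neg_one_ne_one_of_char_ne_two hchar).symm
  have hA := stepanov hp hF hD hd hh h0 hs (ε := (1 : F)) (by norm_num)
  have hB := stepanov hp hF hD hd hh h0 hs (ε := (-1 : F)) (by norm_num)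
  set A := univ.filter fun x : F => D.eval x ^ (Fintype.card F / 2) = 1 with hAdef
  set B := univ.filter fun x : F => D.eval x ^ (Fintype.card F / 2) = -1 with hBdef
  have hC : (univ.filter fun x : F => D.eval x = 0).card ≤ 2 * h := by
    refine le_trans ?_ hh
    refine le_trans ?_ (card_roots' D)
    refine le_trans (Finset.card_le_card ?_) (Multiset.toFinset_card_le _)
    intro x hx
    rw [mem_filter] at hx
    rw [Multiset.mem_toFinset, mem_roots hD.ne_zero]
    exact hx.2
  set Z := univ.filter fun x : F => D.eval x = 0 with hZdef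
  have hsum : ∑ x : F, (quadraticChar F (D.eval x) : ℤ) = A.card - B.card := by
    rw [sum_congr rfl fun x _ => chi_eq hchar (D.eval x), sum_sub_distrib]
    rw [hAdef, hBdef, card_filter, card_filter]
    push_cast
    rfl
  have htot : A.card + B.card + Z.card = Fintype.card F := by
    rw [← card_univ, hAdef, hBdef, hZdef, card_filter, card_filter, card_filter, ← sum_add_distrib,
      ← sum_add_distrib, card_eq_sum_ones]
    refine sum_congr rfl fun x _ => ?_
    by_cases hx : D.eval x = 0
    · have e1 : (0 : F) ≠ -1 := by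
        intro h
        exact one_ne_zero (neg_eq_zero.1 h.symm)
      rw [hx, zero_pow hpos, if_neg zero_ne_one, if_neg e1, if_pos rfl]
    · rcases FiniteField.pow_dichotomy hchar hx with h | h
      · rw [h, if_pos rfl, if_neg h11, if_neg hx]
      · rw [h, if_neg h11.symm, if_pos rfl, if_neg hx]
  rw [hsum, abs_le]
  rw [hF] at htot
  constructor
  · have : (B.card : ℤ) - A.card ≤ 3 * h * p ^ m + 2 * h := by
      have e1 : (B.card : ℤ) - A.card = 2 * B.card + Z.card - (p ^ m : ℤ) ^ 2 := by
        have : ((A.card + B.card + Z.card : ℕ) : ℤ) = ((p ^ m) ^ 2 : ℕ) := by rw [htot]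
        push_cast at this
        linarith
      have e2 : (2 * B.card : ℤ) ≤ (p ^ m : ℤ) ^ 2 + 3 * h * p ^ m := by exact_mod_cast hB
      have e3 : (Z.card : ℤ) ≤ 2 * h := by exact_mod_cast hC
      linarith
    linarith
  · have e1 : (A.card : ℤ) - B.card = 2 * A.card + Z.card - (p ^ m : ℤ) ^ 2 := by
      have : ((A.card + B.card + Z.card : ℕ) : ℤ) = ((p ^ m) ^ 2 : ℕ) := by rw [htot]
      push_cast at this
      linarith
    have e2 : (2 * A.card : ℤ) ≤ (p ^ m : ℤ) ^ 2 + 3 * h * p ^ m := by exact_mod_cast hA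
    have e3 : (Z.card : ℤ) ≤ 2 * h := by exact_mod_cast hC
    linarith

/-- the number of square roots -/
theorem card_sqrt (hF : ringChar F ≠ 2) (a : F) :
    ((univ.filter fun x : F => x ^ 2 = a).card : ℤ) = quadraticChar F a + 1 := by
  rw [← quadraticChar_card_sqrts hF a]
  congr 2
  ext x
  simp

end

end KLW
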