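import Pool.Agent.KLW.B

/-!
# [KLW-C] Kloosterman sums over a field with `s ^ 2` elements
-/

set_option autoImplicit false
set_option linter.unusedSectionVars false

open Polynomial Finset

namespace KLW

/-- Kloosterman sum of an additive character -/
noncomputable def K {F : Type} [Field F] [Fintype F] [DecidableEq F] (ψ : AddChar F ℂ) (a b : F) : ℂ :=
  ∑ x ∈ univ.filter (fun x : F => x ≠ 0), ψ (a * x + b * x⁻¹)

section
variable {F : Type} [Field F] [Fintype F] [DecidableEq F]

theorem norm_le_one (ψ : AddChar F ℂ) (x : F) : ‖ψ x‖ = 1 := AddChar.norm_apply ψ x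

theorem fib_card (hF : ringChar F ≠ 2) {a b : F} (ha : a ≠ 0) (hb : b ≠ 0) (t : F) :
    (((univ.filter (fun x : F => x ≠ 0)).filter (fun x : F => a * x + b * x⁻¹ = t)).card : ℤ) =
      quadraticChar F (t ^ 2 - 4 * a * b) + 1 := by
  have h2 : (2 : F) ≠ 0 := Ring.two_ne_zero hF
  rw [← card_sqrt hF]
  congr 1
  refine Finset.card_bij' (fun x _ => 2 * a * x - t) (fun y _ => (y + t) / (2 * a)) ?_ ?_ ?_ ?_
  · intro x hx
    rw [mem_filter, mem_filter] at hx
    rw [mem_filter]
    refine ⟨mem_univ _, ?_⟩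
    have hx0 := hx.1.2
    have h3 : a * x ^ 2 + b = t * x := by
      rw [← hx.2]; field_simp
    linear_combination (4 * a) * h3
  · intro y hy
    rw [mem_filter] at hy
    have hy2 := hy.2
    have hne : (y + t) / (2 * a) ≠ 0 := by
      intro h
      rw [div_eq_zero_iff] at h
      rcases h with h | h
      · have : y = -t := eq_neg_of_add_eq_zero_left h
        rw [this] at hy2
        have h4 : 4 * a * b = 0 := by linear_combination hy2
        have h5 : (2 : F) * 2 * a * b = 0 := by rw [← h4]; ring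
        exact (mul_ne_zero (mul_ne_zero (mul_ne_zero h2 h2) ha) hb) h5
      · exact mul_ne_zero h2 ha h
    rw [mem_filter, mem_filter]
    refine ⟨⟨mem_univ _, hne⟩, ?_⟩
    have hyt : y + t ≠ 0 := fun h => hne (by rw [h, zero_div])
    field_simp
    linear_combination hy2
  · intro x _
    field_simp
    ring
  · intro y _
    field_simp
    ring

theorem K_eq (hF : ringChar F ≠ 2) {ψ : AddChar F ℂ} (hψ : ψ ≠ 1) {a b : F} (ha : a ≠ 0) (hb : b ≠ 0) :
    K ψ a b = ∑ t : F, ((quadraticChar F (t ^ 2 - 4 * a * b) : ℤ) : ℂ) * ψ t := by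
  have h1 : K ψ a b = ∑ t : F, ∑ x ∈ (univ.filter (fun x : F => x ≠ 0)).filter
      (fun x : F => a * x + b * x⁻¹ = t), ψ (a * x + b * x⁻¹) := by
    unfold K
    rw [Finset.sum_fiberwise]
  have h2 : ∀ t : F, ∑ x ∈ (univ.filter (fun x : F => x ≠ 0)).filter
      (fun x : F => a * x + b * x⁻¹ = t), ψ (a * x + b * x⁻¹) =
      ((quadraticChar F (t ^ 2 - 4 * a * b) : ℤ) : ℂ) * ψ t + ψ t := by
    intro t
    rw [Finset.sum_congr rfl (g := fun _ => ψ t) (fun x hx => by rw [(mem_filter.1 hx).2]),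
      Finset.sum_const, nsmul_eq_mul]
    have := fib_card hF ha hb t
    have h3 : (((univ.filter (fun x : F => x ≠ 0)).filter (fun x : F => a * x + b * x⁻¹ = t)).card : ℂ) =
      ((quadraticChar F (t ^ 2 - 4 * a * b) : ℤ) : ℂ) + 1 := by exact_mod_cast this
    rw [h3]; ring
  rw [h1, Finset.sum_congr rfl (fun t _ => h2 t), Finset.sum_add_distrib,
    AddChar.sum_eq_zero_of_ne_one hψ, add_zero]

/-- the polynomial of the Artin-Schreier cover -/
noncomputable def De (p : ℕ) (a b e : F) : F[X] := (X ^ p - X + C e) ^ 2 - C (4 * a * b)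

theorem De_eval (p : ℕ) (a b e y : F) : (De p a b e).eval y = (y ^ p - y + e) ^ 2 - 4 * a * b := by
  simp [De]

theorem De_natDegree {p : ℕ} (hp : 1 < p) (a b e : F) : (De p a b e).natDegree = 2 * p := by
  have h1 : (X ^ p - X + C e : F[X]).natDegree = p := by
    have : (X ^ p - X + C e : F[X]) = X ^ p - (X - C e) := by ring
    rw [this, natDegree_sub_eq_left_of_natDegree_lt]
    · simp
    · rw [natDegree_X_sub_C, natDegree_X_pow]; exact hp
  unfold De
  rw [natDegree_sub_C, natDegree_pow, h1]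

theorem De_squarefree {p : ℕ} [Fact p.Prime] [CharP F p] (hp : p ≠ 2) {a b : F} (ha : a ≠ 0)
    (hb : b ≠ 0) (e : F) : Squarefree (De p a b e) := by
  have hchar : ringChar F ≠ 2 := by
    rw [ringChar.eq F p]
    exact hp
  have h2 : (2 : F) ≠ 0 := Ring.two_ne_zero hchar
  apply Polynomial.Separable.squarefree
  have hd : derivative (De p a b e) = C (-2) * (X ^ p - X + C e) := by
    unfold De
    have hc : ((p : ℕ) : F[X]) = 0 := CharP.cast_eq_zero _ _
    rw [derivative_sub, derivative_pow, derivative_add, derivative_sub, derivative_X_pow, derivative_X,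
      derivative_C, derivative_C]
    have hc' : (C ((p : ℕ) : F) : F[X]) = 0 := by rw [CharP.cast_eq_zero, C_0]
    rw [hc', C_neg]
    simp
  rw [separable_def, hd]
  have hunit : (4 * a * b : F) ≠ 0 := by
    have : (4 : F) = 2 * 2 := by norm_num
    rw [this]
    exact mul_ne_zero (mul_ne_zero (mul_ne_zero h2 h2) ha) hb
  refine ⟨C (-(4 * a * b)⁻¹), C (-(4 * a * b)⁻¹) * C ((2 : F)⁻¹) * (X ^ p - X + C e), ?_⟩
  unfold De
  have e1 : (C ((2 : F)⁻¹) : F[X]) * C (-2) = -1 := by
    rw [← C_mul, mul_neg, inv_mul_cancel₀ h2, C_neg, C_1]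
  have e2 : (C (-(4 * a * b)⁻¹) : F[X]) * C (4 * a * b) = -1 := by
    rw [← C_mul, neg_mul, inv_mul_cancel₀ hunit, C_neg, C_1]
  linear_combination (C (-(4 * a * b)⁻¹) * (X ^ p - X + C e) ^ 2) * e1 - e2

theorem K_bound {p m : ℕ} [Fact p.Prime] [CharP F p] (hp : p ≠ 2)
    (hF : Fintype.card F = (p ^ m) ^ 2) (hm : 3 ≤ m) {ψ : AddChar F ℂ} (hψ : ψ ≠ 1)
    (hfr : ∀ y, ψ (y ^ p) = ψ y) {a b : F} (ha : a ≠ 0) (hb : b ≠ 0) :
    ‖K ψ a b‖ ≤ 3 * p * p ^ m + 2 * p + 2 := by
  have hchar : ringChar F ≠ 2 := by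
    rw [ringChar.eq F p]
    exact hp
  have hpp : p.Prime := Fact.out
  have hp3 : 3 ≤ p := by
    have := hpp.two_le
    omega
  set Q : ℕ := Fintype.card F with hQ
  have hQpos : 0 < Q := Fintype.card_pos
  -- the identity
  have hid : (Q : ℂ) * K ψ a b = ∑ e : F, ψ e * ((∑ y : F, quadraticChar F ((De p a b e).eval y) : ℤ) : ℂ) := by
    have h1 : ∑ e : F, ψ e * ((∑ y : F, quadraticChar F ((De p a b e).eval y) : ℤ) : ℂ) =
        ∑ y : F, ∑ e : F, ψ e * ((quadraticChar F ((y ^ p - y + e) ^ 2 - 4 * a * b) : ℤ) : ℂ) := by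
      rw [Finset.sum_comm]
      refine Finset.sum_congr rfl fun e _ => ?_
      push_cast
      rw [Finset.mul_sum]
      refine Finset.sum_congr rfl fun y _ => ?_
      rw [De_eval]
    rw [h1]
    have h2 : ∀ y : F, ∑ e : F, ψ e * ((quadraticChar F ((y ^ p - y + e) ^ 2 - 4 * a * b) : ℤ) : ℂ) =
        K ψ a b := by
      intro y
      rw [K_eq hchar hψ ha hb]
      refine Fintype.sum_equiv (Equiv.addLeft (y ^ p - y)) _ _ fun e => ?_
      simp only [Equiv.coe_addLeft]
      rw [AddChar.map_add_eq_mul, AddChar.map_sub_eq_div, hfr, div_self, one_mul, mul_comm]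
      intro h0
      have := norm_le_one ψ y
      rw [h0, norm_zero] at this
      exact zero_ne_one this
    rw [Finset.sum_congr rfl (fun y _ => h2 y), Finset.sum_const, card_univ, nsmul_eq_mul]
  -- bounds
  have hbad : ∀ e : F, |(∑ y : F, quadraticChar F ((De p a b e).eval y) : ℤ)| ≤
      (3 * p * p ^ m + 2 * p) + (if e ^ 2 = 4 * a * b then (Q : ℤ) else 0) := by
    intro e
    split_ifs with he
    · have h1 : |(∑ y : F, quadraticChar F ((De p a b e).eval y) : ℤ)| ≤ Q := by
        refine (Finset.abs_sum_le_sum_abs _ _).trans ?_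
        have : ∑ y : F, |(quadraticChar F ((De p a b e).eval y) : ℤ)| ≤ ∑ y : F, (1 : ℤ) := by
          refine Finset.sum_le_sum fun y _ => ?_
          by_cases h0 : (De p a b e).eval y = 0
          · rw [h0, quadraticChar_zero]; norm_num
          · rcases quadraticChar_dichotomy h0 with h | h
            · rw [h]; norm_num
            · rw [h]; norm_num
        refine this.trans ?_
        rw [Finset.sum_const, card_univ, nsmul_eq_mul, mul_one]
      have : (0 : ℤ) ≤ 3 * p * p ^ m + 2 * p := by positivity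
      linarith
    · rw [add_zero]
      have hsq := De_squarefree hp ha hb e
      have hdeg := De_natDegree hpp.one_lt a b e
      have h0 : (De p a b e).eval 0 ≠ 0 := by
        rw [De_eval, zero_pow hpp.ne_zero, sub_zero, zero_add]
        exact sub_ne_zero.mpr he
      have hlt : p ^ 2 + 2 * p < p ^ m := by
        calc p ^ 2 + 2 * p < p ^ 3 := by nlinarith
          _ ≤ p ^ m := Nat.pow_le_pow_right (by omega) hm
      have := char_sum_le hp hF hsq (by rw [hdeg]; omega) (h := p) hdeg.le h0 hlt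
      exact this
  have hcardbad : (univ.filter fun e : F => e ^ 2 = 4 * a * b).card ≤ 2 := by
    have h1 := card_sqrt hchar (4 * a * b)
    have h2 : (quadraticChar F (4 * a * b) : ℤ) ≤ 1 := by
      by_cases h0 : (4 * a * b : F) = 0
      · rw [h0, quadraticChar_zero]; norm_num
      · rcases quadraticChar_dichotomy h0 with h | h <;> rw [h] <;> norm_num
    omega
  have hnorm : (Q : ℝ) * ‖K ψ a b‖ ≤ Q * (3 * p * p ^ m + 2 * p + 2) := by
    have h1 : (Q : ℝ) * ‖K ψ a b‖ = ‖(Q : ℂ) * K ψ a b‖ := by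
      rw [norm_mul, Complex.norm_natCast]
    rw [h1, hid]
    refine (norm_sum_le _ _).trans ?_
    have h2 : ∀ e : F, ‖ψ e * ((∑ y : F, quadraticChar F ((De p a b e).eval y) : ℤ) : ℂ)‖ ≤
        (3 * p * p ^ m + 2 * p) + (if e ^ 2 = 4 * a * b then (Q : ℝ) else 0) := by
      intro e
      rw [norm_mul, norm_le_one, one_mul, Complex.norm_intCast]
      have := hbad e
      have h3 : ((|(∑ y : F, quadraticChar F ((De p a b e).eval y) : ℤ)| : ℤ) : ℝ) ≤
        (((3 * p * p ^ m + 2 * p) + (if e ^ 2 = 4 * a * b then (Q : ℤ) else 0) : ℤ) : ℝ) := by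
        exact_mod_cast this
      rw [Int.cast_abs] at h3
      refine h3.trans (le_of_eq ?_)
      push_cast
      split_ifs <;> simp
    refine (Finset.sum_le_sum fun e _ => h2 e).trans ?_
    rw [Finset.sum_add_distrib, Finset.sum_const, card_univ, nsmul_eq_mul, ← Finset.sum_filter,
      Finset.sum_const, nsmul_eq_mul]
    have h4 : ((univ.filter fun e : F => e ^ 2 = 4 * a * b).card : ℝ) ≤ 2 := by exact_mod_cast hcardbad
    have hQr : (0 : ℝ) < Q := by exact_mod_cast hQpos
    nlinarith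
  have hQr : (0 : ℝ) < Q := by exact_mod_cast hQpos
  exact le_of_mul_le_mul_left hnorm hQr

end

end KLW
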