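import Pool.Agent.KLW.C

/-!
# [KLW-D] Kloosterman sums over the quadratic extension
-/

set_option autoImplicit false
set_option linter.unusedSectionVars false

open Polynomial Finset

namespace KLW

section
variable {F : Type} [Field F] [Fintype F] [DecidableEq F]

/-- pairs with given sum and product -/
theorem n1_card (hF : ringChar F ≠ 2) (t u : F) (hu : u ≠ 0) :
    (((univ : Finset (F × F)).filter fun z => (z.1 ≠ 0 ∧ z.2 ≠ 0) ∧ z.1 + z.2 = t ∧ z.1 * z.2 = u).card : ℤ) =
      quadraticChar F (t ^ 2 - 4 * u) + 1 := by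
  have h2 : (2 : F) ≠ 0 := Ring.two_ne_zero hF
  rw [← card_sqrt hF]
  congr 1
  refine Finset.card_bij' (fun z _ => z.1 - z.2) (fun w _ => ((t + w) / 2, (t - w) / 2)) ?_ ?_ ?_ ?_
  · rintro ⟨x, y⟩ hz
    rw [mem_filter] at hz
    rw [mem_filter]
    refine ⟨mem_univ _, ?_⟩
    obtain ⟨_, _, h3, h4⟩ := hz
    simp only at h3 h4 ⊢
    rw [← h3, ← h4]
    ring
  · intro w hw
    rw [mem_filter] at hw
    have h3 : (t + w) / 2 * ((t - w) / 2) = u := by
      field_simp
      linear_combination -hw.2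
    rw [mem_filter]
    refine ⟨mem_univ _, ⟨?_, ?_⟩, ?_, h3⟩
    · intro h0
      simp only at h0
      rw [h0, zero_mul] at h3
      exact hu h3.symm
    · intro h0
      simp only at h0
      rw [h0, mul_zero] at h3
      exact hu h3.symm
    · simp only
      field_simp
      ring
  · rintro ⟨x, y⟩ hz
    rw [mem_filter] at hz
    obtain ⟨_, _, h3, h4⟩ := hz
    simp only at h3 h4 ⊢
    rw [← h3]
    ext
    · simp only
      field_simp
      ring
    · simp only
      field_simp
      ring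
  · intro w _
    simp only
    field_simp
    ring

variable {g : F} [hg : Fact (∀ r : F, r ^ 2 ≠ g + 0 * r)]

noncomputable instance : Fintype (QuadraticAlgebra F g 0) :=
  Fintype.ofEquiv _ (QuadraticAlgebra.equivProd g 0).symm

noncomputable instance : DecidableEq (QuadraticAlgebra F g 0) := Classical.decEq _

theorem card_E : Fintype.card (QuadraticAlgebra F g 0) = Fintype.card F ^ 2 := by
  rw [Fintype.card_congr (QuadraticAlgebra.equivProd g 0), Fintype.card_prod, sq]

/-- elements with given trace and norm -/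
theorem n2_card (hF : ringChar F ≠ 2) (t u : F) (hu : u ≠ 0) :
    (((univ : Finset (QuadraticAlgebra F g 0)).filter fun z => z ≠ 0 ∧ z.trace = t ∧ z.norm = u).card : ℤ) =
      - quadraticChar F (t ^ 2 - 4 * u) + 1 := by
  have h2 : (2 : F) ≠ 0 := Ring.two_ne_zero hF
  have hg0 : g ≠ 0 := by
    intro h
    have := hg.out 0
    rw [h] at this
    apply this
    ring
  have hgs : quadraticChar F g = -1 := by
    rw [quadraticChar_neg_one_iff_not_isSquare]
    rintro ⟨r, hr⟩
    apply hg.out r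
    rw [hr]; ring
  have h3 : - (quadraticChar F (t ^ 2 - 4 * u) : ℤ) = quadraticChar F (g * (t ^ 2 - 4 * u)) := by
    rw [map_mul, hgs]; ring
  rw [h3, ← card_sqrt hF]
  congr 1
  refine Finset.card_bij' (fun z _ => 2 * g * z.im) (fun w _ => ⟨t / 2, w / (2 * g)⟩) ?_ ?_ ?_ ?_
  · intro z hz
    rw [mem_filter] at hz
    rw [mem_filter]
    refine ⟨mem_univ _, ?_⟩
    obtain ⟨_, _, h4, h5⟩ := hz
    rw [QuadraticAlgebra.trace_def] at h4
    rw [QuadraticAlgebra.norm_def] at h5
    rw [← h4, ← h5]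
    ring
  · intro w hw
    rw [mem_filter] at hw
    have h4 : (⟨t / 2, w / (2 * g)⟩ : QuadraticAlgebra F g 0).norm = u := by
      rw [QuadraticAlgebra.norm_def]
      simp only
      field_simp
      linear_combination -hw.2
    rw [mem_filter]
    refine ⟨mem_univ _, ?_, ?_, h4⟩
    · intro h0
      rw [h0, QuadraticAlgebra.norm_zero] at h4
      exact hu h4.symm
    · rw [QuadraticAlgebra.trace_def]
      simp only
      field_simp
      ring
  · intro z hz
    rw [mem_filter] at hz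
    obtain ⟨_, _, h4, h5⟩ := hz
    rw [QuadraticAlgebra.trace_def] at h4
    ext
    · simp only
      rw [← h4]
      field_simp
      ring
    · simp only
      field_simp
  · intro w _
    simp only
    field_simp

/-- the character of the extension -/
noncomputable def psiE (ψ : AddChar F ℂ) (g : F) : AddChar (QuadraticAlgebra F g 0) ℂ :=
  ψ.compAddMonoidHom (QuadraticAlgebra.trace (R := F) (a := g) (b := 0)).toAddMonoidHom

theorem psiE_apply (ψ : AddChar F ℂ) (g : F) (z : QuadraticAlgebra F g 0) :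
    psiE ψ g z = ψ z.trace := rfl

theorem psiE_ne (hF : ringChar F ≠ 2) {ψ : AddChar F ℂ} (hψ : ψ ≠ 1) : psiE ψ g ≠ 1 := by
  have h2 : (2 : F) ≠ 0 := Ring.two_ne_zero hF
  intro h
  apply hψ
  ext x
  have h1 : psiE ψ g (algebraMap F _ (x / 2)) = 1 := by rw [h]; rfl
  rw [psiE_apply, QuadraticAlgebra.trace_algebraMap] at h1
  have : 2 * (x / 2) = x := by field_simp
  rw [this] at h1
  rw [h1]; rfl

theorem psiE_frob {p : ℕ} [Fact p.Prime] [CharP F p] {ψ : AddChar F ℂ}
    (hfr : ∀ y, ψ (y ^ p) = ψ y) (z : QuadraticAlgebra F g 0) : psiE ψ g (z ^ p) = psiE ψ g z := by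
  rw [psiE_apply, psiE_apply, ← hfr z.trace]
  congr 1
  apply QuadraticAlgebra.algebraMap_injective (R := F) (a := g) (b := 0)
  have : CharP (QuadraticAlgebra F g 0) p :=
    charP_of_injective_algebraMap (QuadraticAlgebra.algebraMap_injective (R := F) (a := g) (b := 0)) p
  rw [QuadraticAlgebra.algebraMap_trace_eq_add_star, map_pow,
    QuadraticAlgebra.algebraMap_trace_eq_add_star, star_pow, add_pow_char]

theorem trace_inv (z : QuadraticAlgebra F g 0) (a b : F) :
    (algebraMap F _ a * z + algebraMap F _ b * z⁻¹ : QuadraticAlgebra F g 0).trace =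
      a * z.trace + b * z.trace * (z.norm)⁻¹ := by
  have h1 : z⁻¹ = (z.norm)⁻¹ • star z := rfl
  rw [h1, map_add, ← Algebra.smul_def, ← Algebra.smul_def, map_smul, map_smul, map_smul,
    QuadraticAlgebra.trace_star, smul_eq_mul, smul_eq_mul, smul_eq_mul]
  ring

theorem K_double (hF : ringChar F ≠ 2) {ψ : AddChar F ℂ} (hψ : ψ ≠ 1) {a b : F}
    (ha : a ≠ 0) (hb : b ≠ 0) :
    K (psiE ψ g) (algebraMap F _ a) (algebraMap F _ b) = 2 * (Fintype.card F : ℂ) - K ψ a b ^ 2 := by
  have hE : K (psiE ψ g) (algebraMap F _ a) (algebraMap F _ b) =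
      ∑ c : F × F, (((univ : Finset (QuadraticAlgebra F g 0)).filter
        fun z => z ≠ 0 ∧ z.trace = c.1 ∧ z.norm = c.2).card : ℂ) * ψ (a * c.1 + b * c.1 * c.2⁻¹) := by
    have h1 : ∀ c : F × F, (((univ : Finset (QuadraticAlgebra F g 0)).filter
        fun z => z ≠ 0 ∧ z.trace = c.1 ∧ z.norm = c.2).card : ℂ) * ψ (a * c.1 + b * c.1 * c.2⁻¹) =
        ∑ z ∈ (univ.filter (fun z : QuadraticAlgebra F g 0 => z ≠ 0)).filter
          (fun z => (z.trace, z.norm) = c),
          psiE ψ g (algebraMap F _ a * z + algebraMap F _ b * z⁻¹) := by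
      intro c
      rw [Finset.sum_congr rfl (g := fun _ => ψ (a * c.1 + b * c.1 * c.2⁻¹)), Finset.sum_const,
        nsmul_eq_mul, Finset.filter_filter]
      · have : (univ.filter fun z : QuadraticAlgebra F g 0 => z ≠ 0 ∧ z.trace = c.1 ∧ z.norm = c.2) =
          univ.filter fun z : QuadraticAlgebra F g 0 => z ≠ 0 ∧ (z.trace, z.norm) = c := by
          ext z
          simp [Prod.ext_iff]
        rw [this]
      · intro z hz
        have := (mem_filter.1 hz).2
        rw [← this, psiE_apply, trace_inv]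
    rw [Finset.sum_congr rfl (fun c _ => h1 c)]
    unfold K
    rw [Finset.sum_fiberwise]
  have hK : K ψ a b ^ 2 =
      ∑ c : F × F, (((univ : Finset (F × F)).filter
        fun z => (z.1 ≠ 0 ∧ z.2 ≠ 0) ∧ z.1 + z.2 = c.1 ∧ z.1 * z.2 = c.2).card : ℂ) *
          ψ (a * c.1 + b * c.1 * c.2⁻¹) := by
    have h1 : ∀ c : F × F, (((univ : Finset (F × F)).filter
        fun z => (z.1 ≠ 0 ∧ z.2 ≠ 0) ∧ z.1 + z.2 = c.1 ∧ z.1 * z.2 = c.2).card : ℂ) *
          ψ (a * c.1 + b * c.1 * c.2⁻¹) =
        ∑ z ∈ (univ.filter (fun z : F × F => z.1 ≠ 0 ∧ z.2 ≠ 0)).filter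
          (fun z => (z.1 + z.2, z.1 * z.2) = c),
          ψ (a * z.1 + b * z.1⁻¹) * ψ (a * z.2 + b * z.2⁻¹) := by
      intro c
      rw [Finset.sum_congr rfl (g := fun _ => ψ (a * c.1 + b * c.1 * c.2⁻¹)), Finset.sum_const,
        nsmul_eq_mul, Finset.filter_filter]
      · have : (univ.filter fun z : F × F => (z.1 ≠ 0 ∧ z.2 ≠ 0) ∧ z.1 + z.2 = c.1 ∧ z.1 * z.2 = c.2) =
          univ.filter fun z : F × F => (z.1 ≠ 0 ∧ z.2 ≠ 0) ∧ (z.1 + z.2, z.1 * z.2) = c := by
          ext z
          simp [Prod.ext_iff]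
        rw [this]
      · intro z hz
        have h2 := (mem_filter.1 hz).2
        have h3 := (mem_filter.1 (mem_filter.1 hz).1).2
        obtain ⟨h4, h5⟩ := h3
        rw [← h2, ← AddChar.map_add_eq_mul]
        congr 1
        simp only
        field_simp
        ring
    rw [Finset.sum_congr rfl (fun c _ => h1 c), Finset.sum_fiberwise]
    unfold K
    rw [sq, Finset.sum_mul_sum, ← Finset.sum_product']
    refine Finset.sum_congr ?_ fun _ _ => rfl
    ext z
    simp
  rw [eq_sub_iff_add_eq, hE, hK, ← Finset.sum_add_distrib]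
  have h3 : ∀ c : F × F, (((univ : Finset (QuadraticAlgebra F g 0)).filter
        fun z => z ≠ 0 ∧ z.trace = c.1 ∧ z.norm = c.2).card : ℂ) * ψ (a * c.1 + b * c.1 * c.2⁻¹) +
      (((univ : Finset (F × F)).filter
        fun z => (z.1 ≠ 0 ∧ z.2 ≠ 0) ∧ z.1 + z.2 = c.1 ∧ z.1 * z.2 = c.2).card : ℂ) *
          ψ (a * c.1 + b * c.1 * c.2⁻¹) =
      if c.2 = 0 then 0 else 2 * ψ (c.1 * (a + b * c.2⁻¹)) := by
    rintro ⟨t, u⟩
    simp only
    split_ifs with hu
    · have e1 : ((univ : Finset (QuadraticAlgebra F g 0)).filter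
        fun z => z ≠ 0 ∧ z.trace = t ∧ z.norm = u) = ∅ := by
        rw [Finset.filter_eq_empty_iff]
        rintro z _ ⟨h4, _, h5⟩
        rw [hu, QuadraticAlgebra.norm_eq_zero_iff_eq_zero] at h5
        exact h4 h5
      have e2 : ((univ : Finset (F × F)).filter
        fun z => (z.1 ≠ 0 ∧ z.2 ≠ 0) ∧ z.1 + z.2 = t ∧ z.1 * z.2 = u) = ∅ := by
        rw [Finset.filter_eq_empty_iff]
        rintro z _ ⟨⟨h4, h5⟩, _, h6⟩
        rw [hu] at h6
        exact (mul_ne_zero h4 h5) h6
      rw [e1, e2]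
      simp
    · have e1 := n2_card (g := g) hF t u hu
      have e2 := n1_card hF t u hu
      have e3 : (((univ : Finset (QuadraticAlgebra F g 0)).filter
        fun z => z ≠ 0 ∧ z.trace = t ∧ z.norm = u).card : ℂ) +
        (((univ : Finset (F × F)).filter
        fun z => (z.1 ≠ 0 ∧ z.2 ≠ 0) ∧ z.1 + z.2 = t ∧ z.1 * z.2 = u).card : ℂ) = 2 := by
        have : (((univ : Finset (QuadraticAlgebra F g 0)).filter
          fun z => z ≠ 0 ∧ z.trace = t ∧ z.norm = u).card : ℤ) +
          (((univ : Finset (F × F)).filter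
          fun z => (z.1 ≠ 0 ∧ z.2 ≠ 0) ∧ z.1 + z.2 = t ∧ z.1 * z.2 = u).card : ℤ) = 2 := by
          rw [e1, e2]; ring
        exact_mod_cast this
      rw [← add_mul, e3]
      congr 2
      ring
  rw [Finset.sum_congr rfl (fun c _ => h3 c), Fintype.sum_prod_type, Finset.sum_comm]
  have h4 : ∀ u : F, ∑ t : F, (if (t, u).2 = 0 then (0 : ℂ) else 2 * ψ ((t, u).1 * (a + b * (t, u).2⁻¹))) =
      if u = -b / a then 2 * (Fintype.card F : ℂ) else 0 := by
    intro u
    simp only
    have hprim : ∀ s : F, s ≠ 0 → ∑ t : F, ψ (t * s) = 0 := by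
      intro s hs
      rw [← AddChar.sum_eq_zero_of_ne_one hψ]
      exact Fintype.sum_equiv (Equiv.mulRight₀ s hs) _ _ fun t => rfl
    by_cases hu : u = 0
    · have : ¬ (u = -b / a) := by
        rw [hu]
        intro h
        have h5 : -b / a ≠ 0 := div_ne_zero (neg_ne_zero.mpr hb) ha
        exact h5 h.symm
      rw [if_neg this]
      simp [hu]
    · simp only [if_neg hu]
      rw [← Finset.mul_sum]
      split_ifs with h5
      · have : a + b * u⁻¹ = 0 := by
          rw [h5]; field_simp; ring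
        simp only [this, mul_zero, AddChar.map_zero_eq_one, Finset.sum_const, card_univ,
          nsmul_eq_mul, mul_one]
      · have : a + b * u⁻¹ ≠ 0 := by
          intro h6
          apply h5
          field_simp at h6
          field_simp
          linear_combination h6
        rw [hprim _ this, mul_zero]
  rw [Finset.sum_congr rfl (fun u _ => h4 u), Finset.sum_ite_eq' univ]
  simp

theorem doubling {p : ℕ} [Fact p.Prime] [CharP F p] (hp : p ≠ 2) {ψ : AddChar F ℂ} (hψ : ψ ≠ 1)
    (hfr : ∀ y, ψ (y ^ p) = ψ y) {a b : F} (ha : a ≠ 0) (hb : b ≠ 0) :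
    ∃ (E : Type) (_ : Field E) (_ : Fintype E) (_ : DecidableEq E) (_ : CharP E p)
      (ψ' : AddChar E ℂ) (a' b' : E), Fintype.card E = Fintype.card F ^ 2 ∧ ψ' ≠ 1 ∧
      (∀ y, ψ' (y ^ p) = ψ' y) ∧ a' ≠ 0 ∧ b' ≠ 0 ∧
      K ψ' a' b' = 2 * (Fintype.card F : ℂ) - K ψ a b ^ 2 := by
  have hchar : ringChar F ≠ 2 := by
    rw [ringChar.eq F p]
    exact hp
  obtain ⟨g, hg⟩ := FiniteField.exists_nonsquare hchar
  have : Fact (∀ r : F, r ^ 2 ≠ g + 0 * r) := ⟨fun r h => hg ⟨r, by rw [← sq, h]; ring⟩⟩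
  have hinj := QuadraticAlgebra.algebraMap_injective (R := F) (a := g) (b := 0)
  exact ⟨QuadraticAlgebra F g 0, inferInstance, inferInstance, inferInstance,
    charP_of_injective_algebraMap hinj p, psiE ψ g, algebraMap F _ a, algebraMap F _ b, card_E,
    psiE_ne hchar hψ, psiE_frob hfr, (map_ne_zero_iff _ hinj).mpr ha, (map_ne_zero_iff _ hinj).mpr hb,
    K_double hchar hψ ha hb⟩

end

end KLW
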